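import Pool.Agent.Lib.MP_688fd0_co.SQ7.IfaceG
import Pool.Agent.Lib.MP_688fd0_co.SQ5.H24.Hgt

/-!
Type C2, B1-FULL, row GRPA (helper64): the choice of the letters.
-/

set_option autoImplicit false

namespace Pool.Agent.Lib.MP_688fd0_co.SQ7.H64

open Pool.Agent.Lib.MP_688fd0_co.OSF Pool.Agent.Lib.MP_688fd0_co.SQ3 Pool.Agent.Lib.MP_688fd0_co.SQD.H24
open Subgroup

variable {G : Type} [Group G] [Finite G] {N C : Subgroup G} {eps : G →* ℤˣ} {k P : ℕ}

/-- Primes of `N₁` do not divide the order of an element with `eps = -1`. -/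
theorem ndvd_neg (h : GN N C eps k P) {p : ℕ} (hp : p.Prime) (hpN : p ∣ Nat.card N) (hpC : ¬ p ∣ Nat.card C) {g : G}
    (hg : eps g = -1) : ¬ p ∣ orderOf g := by
  intro hd
  have hpk := ndvd_k h hp hpN
  have hk : 0 < k := by
    rw [← h.idx]
    exact Nat.pos_of_ne_zero N.index_ne_zero_of_finite
  have hbig := (h.big p (Nat.mem_primeFactors.2 ⟨hp, hpN, Nat.card_pos.ne'⟩)).1
  obtain ⟨m, hm⟩ := hd
  have hm0 : m ≠ 0 := by
    rintro rfl
    rw [mul_zero] at hm
    exact (orderOf_pos g).ne' hm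
  have hy : orderOf (g ^ m) = p := by
    rw [orderOf_pow_of_dvd hm0 ⟨p, by rw [hm, mul_comm]⟩, hm, Nat.mul_div_cancel _ (Nat.pos_of_ne_zero hm0)]
  have hyN : g ^ m ∈ N := by
    have h1 := pow_mem_N h (g ^ m)
    have h2 : (orderOf (g ^ m)).Coprime k := by
      rw [hy]
      exact (Nat.Prime.coprime_iff_not_dvd hp).2 hpk
    obtain ⟨j, hj⟩ := exists_pow_eq_self_of_coprime h2.symm
    rw [← hj]
    exact N.pow_mem h1 j
  have h3 := h.act _ hyN g
  have h4 : g * g ^ m * g⁻¹ = g ^ m := by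
    rw [← pow_succ', pow_succ, mul_inv_cancel_right]
  rw [hg, h4] at h3
  have h5 : g ^ m * ((g ^ m) ^ (((-1 : ℤˣ) : ℤ)))⁻¹ = (g ^ m) ^ 2 := by
    rw [Units.val_neg, Units.val_one, zpow_neg_one, inv_inv, pow_two]
  rw [h5] at h3
  have h6 : orderOf ((g ^ m) ^ 2) = p := by
    rw [orderOf_pow, hy, (Nat.Prime.coprime_iff_not_dvd hp).2 (fun h7 => by have := Nat.le_of_dvd (by norm_num) h7; omega),
      Nat.div_one]
  have h7 : orderOf (⟨(g ^ m) ^ 2, h3⟩ : C) ∣ Nat.card C := orderOf_dvd_natCard _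
  rw [Subgroup.orderOf_mk, h6] at h7
  exact hpC h7

/-- A letter and its inverse have the same heights. -/
theorem sim_inv (h : GN N C eps k P) {g : G} (hg : eps g = -1) : SQD.Sim N C g g⁻¹ := by
  intro p hp hpC hd
  rw [inv_inv, ← pow_two] at hd
  exact ndvd_neg h (Nat.prime_of_mem_primeFactors hp) (Nat.dvd_of_mem_primeFactors hp) hpC hg
    (hd.trans (orderOf_pow_dvd 2))

/-- ROW GRPA. -/
theorem grpA (hT : SQ6.TwoHS) : GrpAS := by
  obtain ⟨c₀, hT⟩ := hT
  refine ⟨c₀, fun G _ _ N C eps k P A c₁ hR hs hP => ?_⟩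
  have hP' := hR.gn.prime
  have hPN := hR.gn.dvd
  have hPC := hR.gn.ndvd
  have hPf : P ∈ (Nat.card N).primeFactors := Nat.mem_primeFactors.2 ⟨hP', hPN, Nat.card_pos.ne'⟩
  -- the same `P`-height
  have htr : ∀ {x y z : G}, x ∈ A → y ∈ A → z ∈ A → ¬ P ∣ orderOf (x * y⁻¹) → ¬ P ∣ orderOf (y * z⁻¹) →
      ¬ P ∣ orderOf (x * z⁻¹) := fun hx hy hz h1 h2 =>
    same_trans hR.gn hP' hPN hPC ((hR.neg _ hx).trans (hR.neg _ hy).symm) ((hR.neg _ hy).trans (hR.neg _ hz).symm) h1 h2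
  -- the letters `al`
  obtain ⟨al, a1, a2, a3, a4, a5⟩ : ∃ al : Bool → G, (∀ i, al i ∈ A) ∧ al false ≠ al true ∧
      (∀ i, ∃ i', (al i)⁻¹ = al i') ∧ (al true = (al false)⁻¹ ∨ ∀ x ∈ A, x * x = 1) ∧
      SQD.Sim N C (al false) (al true) := by
    by_cases hi : ∀ x ∈ A, x * x = 1
    · obtain ⟨s, hs1, s', hs2, hne, hsim⟩ := hs
      refine ⟨fun i => if i then s' else s, ?_, hne, ?_, Or.inr hi, hsim⟩
      · intro i
        cases i
        · exact hs1
        · exact hs2
      · intro i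
        refine ⟨i, ?_⟩
        cases i
        · exact inv_eq_of_mul_eq_one_left (hi s hs1)
        · exact inv_eq_of_mul_eq_one_left (hi s' hs2)
    · push Not at hi
      obtain ⟨c, hc, hcc⟩ := hi
      refine ⟨fun i => if i then c⁻¹ else c, ?_, ?_, ?_, Or.inl rfl, sim_inv hR.gn (hR.neg c hc)⟩
      · intro i
        cases i
        · exact hc
        · exact hR.sym c hc
      · intro h
        have h1 : c = c⁻¹ := h
        apply hcc
        nth_rewrite 2 [h1]
        exact mul_inv_cancel c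
      · intro i
        refine ⟨!i, ?_⟩
        cases i
        · rfl
        · exact inv_inv c
  -- the letter `b`
  obtain ⟨b, hb, hbh⟩ : ∃ b ∈ A, P ∣ orderOf (b * (al false)⁻¹) := by
    by_contra hcon
    push Not at hcon
    exact hR.three ⟨al false, a1 _, al false, a1 _, fun s hs => Or.inl (hcon s hs)⟩
  let be : Bool → G := fun j => if j then b⁻¹ else b
  have hbe : ∀ j, be j ∈ A := by
    intro j
    cases j
    · exact hb
    · exact hR.sym b hb
  have hself : ∀ x : G, ¬ P ∣ orderOf (x * x⁻¹) := fun x h1 => by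
    rw [mul_inv_cancel, orderOf_one] at h1
    exact hP'.one_lt.ne' (Nat.dvd_one.1 h1)
  have hal0 : ∀ i, ¬ P ∣ orderOf (al i * (al false)⁻¹) := by
    intro i
    cases i
    · exact hself _
    · exact same_symm (a5 P hPf hPC)
  have hbe0 : ∀ j, ¬ P ∣ orderOf (b * (be j)⁻¹) := by
    intro j
    cases j
    · exact hself _
    · exact sim_inv hR.gn (hR.neg b hb) P hPf hPC
  have hgt : ∀ i j, P ∣ orderOf (al i * (be j)⁻¹) := by
    intro i j
    by_contra h
    exact htr hb (hbe j) (a1 false) (hbe0 j) (htr (hbe j) (a1 i) (a1 false) (same_symm h) (hal0 i)) hbh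
  let S : Lets G := ⟨al, be⟩
  let K : Subgroup G := closure (Set.range al ∪ Set.range be)
  let D : Set G := {x | x ∈ A ∧ x ∉ K}
  have hsubK : Set.range al ∪ Set.range be ⊆ A := by
    rintro x (⟨i, rfl⟩ | ⟨j, rfl⟩)
    · exact a1 i
    · exact hbe j
  by_cases hD : D.Nonempty
  · right
    refine ⟨S, D, { gn := hR.gn, symA := hR.sym, neg := hR.neg, al := a1, be := hbe, ne := a2, al_inv := a3,
                    be_inv := rfl, kind := a4, sim := a5, hgt := hgt, DA := fun x hx => hx.1, Dn := hD,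
                    Dinv := fun x hx => ⟨hR.sym x hx.1, fun h => hx.2 (by have := K.inv_mem h; rwa [inv_inv] at this)⟩,
                    DG := fun x hx => hx.2, gen := ?_ }⟩
    rw [eq_top_iff, ← hR.gen, closure_le]
    intro x hx
    by_cases hxK : x ∈ K
    · exact closure_mono Set.subset_union_right hxK
    · exact subset_closure (Or.inl ⟨hx, hxK⟩)
  · left
    have hAK : A ⊆ K := fun x hx => by
      by_contra h
      exact hD ⟨x, hx, h⟩
    have hK : K = ⊤ := by
      rw [eq_top_iff, ← hR.gen, closure_le]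
      exact hAK
    refine SQ4.lst_mono' hsubK (hT G N C eps k P _ hR.gn ?_ hK (fun x hx => hR.neg x (hsubK hx)) ?_ hP)
    · rintro x (⟨i, rfl⟩ | ⟨j, rfl⟩)
      · obtain ⟨i', hi'⟩ := a3 i
        exact Or.inl ⟨i', hi'.symm⟩
      · refine Or.inr ⟨!j, ?_⟩
        cases j
        · rfl
        · exact (inv_inv b).symm
    · refine ⟨al false, Or.inl ⟨false, rfl⟩, b, Or.inr ⟨false, rfl⟩, ?_⟩
      rintro x (⟨i, rfl⟩ | ⟨j, rfl⟩)
      · exact Or.inl (hal0 i)
      · exact Or.inr (same_symm (hbe0 j))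

end Pool.Agent.Lib.MP_688fd0_co.SQ7.H64
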